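import Pool.Agent.W823.QT.Stm

/-! QT-EPS (for helper823): the bounds for the arc weights. -/

set_option autoImplicit false

namespace Pool.Agent.W140.QTEPS

open MeasureTheory ProbabilityTheory Filter Topology Pool.Agent.W823.QT
open scoped ENNReal NNReal

lemma Ex_mono {s t : ℝ≥0∞} (h : s ≤ t) : Ex s ≤ Ex t := by
  unfold Ex
  exact EReal.exp_monotone (EReal.coe_ennreal_le_coe_ennreal_iff.2 h)

lemma Ex_coe (t : ℝ≥0) : Ex t = ENNReal.ofReal (Real.exp t) := by
  unfold Ex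
  rw [show ((t : ℝ≥0∞) : EReal) = ((t : ℝ) : EReal) from rfl, EReal.exp_coe]

lemma Ex_ne_top {t : ℝ≥0∞} (h : t ≠ ∞) : Ex t ≠ ∞ := by
  lift t to ℝ≥0 using h
  rw [Ex_coe]
  exact ENNReal.ofReal_ne_top

lemma Ex_sub_one_le {t : ℝ≥0∞} (h : t ≤ 1) : Ex t - 1 ≤ 2 * t := by
  lift t to ℝ≥0 using ne_top_of_le_ne_top ENNReal.one_ne_top h
  have h1 : (t : ℝ) ≤ 1 := by exact_mod_cast h
  have h0 : (0 : ℝ) ≤ t := t.2
  rw [Ex_coe, show (1 : ℝ≥0∞) = ENNReal.ofReal 1 by simp, ← ENNReal.ofReal_sub _ zero_le_one]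
  have h2 : (2 : ℝ≥0∞) * t = ENNReal.ofReal (2 * (t : ℝ)) := by
    rw [ENNReal.ofReal_mul zero_le_two, ENNReal.ofReal_coe_nnreal]
    norm_num
  rw [h2]
  apply ENNReal.ofReal_le_ofReal
  have h3 := Real.abs_exp_sub_one_sub_id_le (x := (t : ℝ)) (by rw [abs_of_nonneg h0]; exact h1)
  have h4 := (abs_le.1 h3).2
  nlinarith

theorem main : EPS_T := by
  intro d q _ p g c η hK
  have hsm : ∀ k : ℕ, c * (((k : ℝ≥0∞) + 1) * g k) ≤ 1 / 32 := fun k =>
    le_trans (mul_le_mul_right (ENNReal.le_tsum k) c) hK.small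
  have hcg : ∀ k : ℕ, c * g k ≤ c * (((k : ℝ≥0∞) + 1) * g k) := by
    intro k
    refine mul_le_mul_right ?_ c
    calc g k = 1 * g k := (one_mul _).symm
      _ ≤ ((k : ℝ≥0∞) + 1) * g k := mul_le_mul_left le_add_self _
  have h32 : (1 : ℝ≥0∞) / 32 ≤ 1 := by
    rw [ENNReal.div_le_iff (by norm_num) (by norm_num)]
    norm_num
  have hc1 : ∀ k : ℕ, c * g k ≤ 1 := fun k => ((hcg k).trans (hsm k)).trans h32
  refine ⟨⟨fun k => ?_, ?_⟩, fun k z => ?_⟩
  · exact ne_top_of_le_ne_top (Ex_ne_top (ne_top_of_le_ne_top ENNReal.one_ne_top (hc1 k)))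
      tsub_le_self
  · calc ∑' k : ℕ, (k : ℝ≥0∞) * (Ex (c * g k) - 1)
        ≤ ∑' k : ℕ, 2 * (c * (((k : ℝ≥0∞) + 1) * g k)) := by
          refine ENNReal.tsum_le_tsum fun k => ?_
          calc (k : ℝ≥0∞) * (Ex (c * g k) - 1) ≤ (k : ℝ≥0∞) * (2 * (c * g k)) :=
                mul_le_mul_right (Ex_sub_one_le (hc1 k)) _
            _ = 2 * (c * ((k : ℝ≥0∞) * g k)) := by ring
            _ ≤ 2 * (c * (((k : ℝ≥0∞) + 1) * g k)) := by
                refine mul_le_mul_right (mul_le_mul_right (mul_le_mul_left le_self_add _) _) _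
      _ = 2 * (c * ∑' k : ℕ, ((k : ℝ≥0∞) + 1) * g k) := by
          rw [ENNReal.tsum_mul_left, ENNReal.tsum_mul_left]
      _ ≤ 2 * (1 / 32) := mul_le_mul_right hK.small _
      _ ≤ 1 / 8 := by
          rw [← mul_div_assoc, mul_one, ENNReal.div_le_iff (by norm_num) (by norm_num)]
          rw [one_div, ← ENNReal.div_eq_inv_mul, ENNReal.le_div_iff_mul_le (by norm_num) (by norm_num)]
          norm_num
  · have hp : p k (z k) ≤ g k := by
      have h := hK.bound k 0 (z k)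
      have h2 : ∫⁻ a, p k (z k + pos a 0) ∂(iid q) = p k (z k) := by
        have h3 : ∀ a : ℕ → Fin d → ℤ, p k (z k + pos a 0) = p k (z k) := by
          intro a
          simp [pos]
        have hpr : IsProbabilityMeasure (iid q) := by unfold iid; infer_instance
        simp only [h3, lintegral_const, measure_univ, mul_one]
      rw [h2] at h
      exact h
    refine ENNReal.le_sub_of_add_le_left ENNReal.one_ne_top ((hK.le k z).trans (Ex_mono ?_))
    exact mul_le_mul_right hp c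

end Pool.Agent.W140.QTEPS
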