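import Pool.Agent.W25.UB.Stm3

/-! UB-U2 (for helper25): the mixed second moments from above. -/

set_option autoImplicit false

namespace Pool.Agent.W140.UBU2

open Finset Filter Topology
open Pool.Agent.H410R2 hiding GP GP_prof GP_cut_some GP_cut_none GP_lip gg_pos gg_le_one gg_anti ee_bound ee_nonneg gg_lip LB_gg LB_ee Sums exists_sums yx wx wxi Br sum_GP_none sum_GP_some sum_GP_some_ee sum_GP_some_one sum_GPr_none sum_GPr_some S1_final QI_final S2_final w_abs_le wmax gg ee I1 I2 IE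
open Pool.Agent.H361R2.GM
open Pool.Agent.H362R2.CM
open Pool.Agent.W25.UN
open Pool.Agent.W25.UB

lemma xx01 (P : Finset ℕ) (m : ℤ) :
    Pool.Agent.W23.PL.xx P m = 0 ∨ ((∀ p ∈ P, ¬ (p : ℤ) ∣ m) ∧ Pool.Agent.W23.PL.xx P m = 1) := by
  unfold Pool.Agent.W23.PL.xx
  by_cases h : ∀ p ∈ P, ¬ (p : ℤ) ∣ m
  · right; exact ⟨h, if_pos h⟩
  · left; exact if_neg h

lemma xx_nonneg (P : Finset ℕ) (m : ℤ) : 0 ≤ Pool.Agent.W23.PL.xx P m := by
  rcases xx01 P m with h | ⟨-, h⟩ <;> rw [h]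
  exact zero_le_one

lemma cw_bound {J : Type} (P : Finset ℕ) (hP : ∀ p ∈ P, p.Prime) (y : (IP P → Option J) → ℝ)
    (U : ℝ) (σ : IP P → Option J) (hy : |y σ| ≤ U) :
    |cw (prP P) y σ| ≤ U * mulc (prP P) (fun p => 1 / ((p : ℝ) - 1)) σ := by
  have h1 : |∏ t, cf (prP P t) (σ t)| = mulc (prP P) (fun p => 1 / ((p : ℝ) - 1)) σ := by
    rw [Finset.abs_prod]
    unfold mulc
    refine Finset.prod_congr rfl fun t _ => ?_
    have h2 : (1 : ℝ) < (prP P t : ℝ) := by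
      have := (hP t.1 t.2).one_lt
      exact_mod_cast this
    rcases hσ : σ t with _ | s
    · simp [cf]
    · simp only [cf, reduceCtorEq, if_false]
      rw [abs_neg, abs_of_nonneg]
      exact div_nonneg zero_le_one (by linarith)
  unfold cw
  rw [abs_mul, h1, mul_comm]
  refine mul_le_mul_of_nonneg_right hy ?_
  rw [← h1]; exact abs_nonneg _

lemma cw_ne {J : Type} (P : Finset ℕ) (y : (IP P → Option J) → ℝ) (σ : IP P → Option J)
    (h : cw (prP P) y σ ≠ 0) : y σ ≠ 0 := by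
  intro h0
  apply h
  unfold cw
  rw [h0, mul_zero]

lemma main_ineq (k : ℕ) (hk : 3 ≤ k) (I1 I2 ε ε₁ b V' W' V G X t Qf H : ℝ) (hb : 0 < b)
    (hV' : 0 < V') (hW : 0 < W') (hV : 0 < V) (hG : 0 < G) (hX : 0 ≤ X) (hε : ε < 1 / 3) (hε0 : 0 < ε)
    (ht : t ≤ (1 + ε) * V') (ht0 : 0 ≤ t) (hH : |H - V| ≤ ε₁ ^ 3 * V) (hε₁ : 0 < ε₁)
    (hε₁' : ε₁ ≤ 1 / 2)
    (hQ0 : 0 ≤ Qf) (hI1 : 0 < I1) (hI2 : 0 < I2)
    (hQ : Qf ≤ (b * (I1 + ε)) ^ 6 / (b * (1 - ε)) ^ 2 * (b * (1 + ε)) * (b / 48 * (1 / 3 + ε)) *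
        (b * (I2 + ε)) ^ (k - 3)) :
    X * (t / W' * (H * H * Qf) * ((1 / G) * (1 / G))) ≤
      (X * (V' / W' * (b / 48 * b ^ k))) * (V / G * b) ^ 2 *
      ((1 + ε) * (1 + ε₁ ^ 3) ^ 2 * ((I1 + ε) ^ 6 / (1 - ε) ^ 2 * (1 + ε) * (1 / 3 + ε) *
        (I2 + ε) ^ (k - 3))) := by
  have h1 : 0 < 1 - ε := by linarith
  have hH2 : H * H ≤ (V * (1 + ε₁ ^ 3)) * (V * (1 + ε₁ ^ 3)) := by
    have h3 := abs_le.1 hH
    have h5 : ε₁ ^ 3 * V ≤ V := by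
      have : ε₁ ^ 3 ≤ 1 := by
        apply pow_le_one₀ hε₁.le; linarith
      nlinarith
    have h4 : 0 ≤ H := by linarith [h3.1]
    have h6 : H ≤ V * (1 + ε₁ ^ 3) := by linarith [h3.2]
    exact mul_le_mul h6 h6 h4 (h4.trans h6)
  have hHQ : H * H * Qf ≤ (V * (1 + ε₁ ^ 3)) * (V * (1 + ε₁ ^ 3)) *
      ((b * (I1 + ε)) ^ 6 / (b * (1 - ε)) ^ 2 * (b * (1 + ε)) * (b / 48 * (1 / 3 + ε)) *
        (b * (I2 + ε)) ^ (k - 3)) :=
    mul_le_mul hH2 hQ hQ0 (by positivity)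
  have htW : t / W' ≤ (1 + ε) * V' / W' := div_le_div_of_nonneg_right ht hW.le
  calc X * (t / W' * (H * H * Qf) * ((1 / G) * (1 / G)))
      ≤ X * ((1 + ε) * V' / W' * ((V * (1 + ε₁ ^ 3)) * (V * (1 + ε₁ ^ 3)) *
      ((b * (I1 + ε)) ^ 6 / (b * (1 - ε)) ^ 2 * (b * (1 + ε)) * (b / 48 * (1 / 3 + ε)) *
        (b * (I2 + ε)) ^ (k - 3))) * ((1 / G) * (1 / G))) := by
        refine mul_le_mul_of_nonneg_left (mul_le_mul_of_nonneg_right ?_ (by positivity)) hX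
        refine mul_le_mul htW hHQ (mul_nonneg (mul_self_nonneg _) hQ0) (by positivity)
    _ = _ := by
        obtain ⟨m, rfl⟩ : ∃ m, k = m + 3 := ⟨k - 3, by omega⟩
        rw [show m + 3 - 3 = m by omega]
        have hb0 : b ≠ 0 := hb.ne'
        field_simp
        rw [mul_pow]
        ring

theorem main (hNWU : St_NWU) (hNWE : St_NWE) : St_U2 := by
  intro k Q α h ε₀ ε₁ ρ ρ₁ ε M C1 A E₁ D B N v D₁ z Tr t th dl b hI1 hI2 hD i j l hij hil hjl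
  have hlog : 0 < Real.log N := lt_of_lt_of_le one_pos hD.l1
  have hL : 0 < ρ * Real.log N := mul_pos hD.ρ0 hlog
  have hPp : ∀ p ∈ PB α h N B ρ₁, p.Prime := fun p hp =>
    (hD.gd p (Finset.mem_union_left _ hp)).1.1
  obtain ⟨-, -, hC, hsz, hQ⟩ := hNWU k Q (PB α h N B ρ₁) (ρ * Real.log N) i j l hij hil hjl hL hPp
  obtain ⟨-, -, hQ0, hQ1⟩ := hQ (DB (2 * N) B) ε (bb N B ρ) (LZ (uB α) (wB h N)) hD.sd hD.ε0
    hD.ε3 hI1 hI2 hD.bd0 rfl hD.sums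
  obtain ⟨hE, -⟩ := hNWE k (uB α) (wB h N) (PB α h N B ρ₁) (fun p hp => (hPp p hp).two_le)
  have hFZ : ∀ n : ℤ, (∀ p ∈ Pt α h N B ε₁, ¬ (p : ℤ) ∣ Lf α h N (some j) n) →
      (∀ p ∈ Pt α h N B ε₁, ¬ (p : ℤ) ∣ Lf α h N (some l) n) →
      FZ (uB α) (wB h N) (PB α h N B ρ₁) (cw (prP (PB α h N B ρ₁))
        (zC Q k (PB α h N B ρ₁) (ρ * Real.log N) i j l)) n =
      FZ (uB α) (wB h N) (PB α h N B ρ₁) (cw (prP (PB α h N B ρ₁))
        (zA Q k (PB α h N B ρ₁) (ρ * Real.log N) i)) n := by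
    intro n h1 h2
    have e1 := hE (some j) 0 (zA Q k (PB α h N B ρ₁) (ρ * Real.log N) i) n le_rfl
      (fun p hp => h1 p (hD.sub hp))
    have e2 := hE (some l) 0 (zB Q k (PB α h N B ρ₁) (ρ * Real.log N) i j) n le_rfl
      (fun p hp => h2 p (hD.sub hp))
    exact e2.trans e1
  obtain ⟨hsum, hmas⟩ := hD.mas (2 * N) (z ^ 2) (cw (prP (PB α h N B ρ₁))
      (zC Q k (PB α h N B ρ₁) (ρ * Real.log N) i j l)) j l th th b b (Or.inl rfl) hD.z2 hjl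
    (fun σ => cw_bound _ hPp _ _ σ ((hsz σ).2.2.trans hD.size))
    (fun σ hσ => by
      have := (hC σ (cw_ne _ _ σ hσ)).1
      rw [mul_assoc]; exact this)
    hD.dth hD.dth (Or.inr fun σ hσ => (hC σ (cw_ne _ _ σ hσ)).2.1)
    (Or.inr fun σ hσ => (hC σ (cw_ne _ _ σ hσ)).2.2) hD.bM hD.bM
  -- the comparison
  have hW0 : ∀ n : ℤ, 0 ≤ Pool.Agent.H442R2.KF.Wt (2 * N) n := fun n => (Real.exp_pos _).le
  have hi0 : ∀ n : ℤ, 0 ≤ (if ((WW D / 2 : ℕ) : ℤ) ∣ n - v then (1 : ℝ) else 0) * Tr n := by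
    intro n
    refine mul_nonneg ?_ (hD.Tr0 n)
    split_ifs <;> norm_num
  have hEv : ∀ m : ℤ, 0 ≤ Pool.Agent.W23.PL.Ev th D₁ m := fun m =>
    (xx_nonneg _ m).trans (hD.fl m).1
  have hG0 : ∀ n : ℤ, 0 ≤ Pool.Agent.H442R2.KF.Wt (2 * N) n *
      Ms α h N D v D₁ (z ^ 2) (PB α h N B ρ₁) Tr (cw (prP (PB α h N B ρ₁))
      (zC Q k (PB α h N B ρ₁) (ρ * Real.log N) i j l)) j l th th b b n := by
    intro n
    refine mul_nonneg (hW0 n) ?_
    unfold Ms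
    exact mul_nonneg (mul_nonneg (hi0 n) (mul_nonneg (sq_nonneg _)
      (mul_nonneg (hEv _) (hEv _)))) (mul_nonneg (hD.bn _) (hD.bn _))
  have hF : ∀ n : ℤ, 0 ≤ mu Q α h ρ ρ₁ D B N v Tr i n * (sj α h ε₁ B N z b j n *
      sj α h ε₁ B N z b l n) ∧ mu Q α h ρ ρ₁ D B N v Tr i n * (sj α h ε₁ B N z b j n *
      sj α h ε₁ B N z b l n) ≤ Pool.Agent.H442R2.KF.Wt (2 * N) n *
      Ms α h N D v D₁ (z ^ 2) (PB α h N B ρ₁) Tr (cw (prP (PB α h N B ρ₁))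
      (zC Q k (PB α h N B ρ₁) (ρ * Real.log N) i j l)) j l th th b b n := by
    intro n
    have hn1 := hD.bn (Lf α h N (some j) n)
    have hn2 := hD.bn (Lf α h N (some l) n)
    constructor
    · unfold mu sj
      exact mul_nonneg (mul_nonneg (hW0 n) (mul_nonneg (hi0 n) (sq_nonneg _)))
        (mul_nonneg (mul_nonneg (xx_nonneg _ _) hn1) (mul_nonneg (xx_nonneg _ _) hn2))
    · rcases xx01 (Pt α h N B ε₁) (Lf α h N (some j) n) with hx | ⟨hx1, hx⟩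
      · have : sj α h ε₁ B N z b j n = 0 := by unfold sj; rw [hx, zero_mul]
        rw [this, zero_mul, mul_zero]
        exact hG0 n
      rcases xx01 (Pt α h N B ε₁) (Lf α h N (some l) n) with hy | ⟨hy1, hy⟩
      · have : sj α h ε₁ B N z b l n = 0 := by unfold sj; rw [hy, zero_mul]
        rw [this, mul_zero, mul_zero]
        exact hG0 n
      have g1 := (hD.fl (Lf α h N (some j) n)).1
      have g2 := (hD.fl (Lf α h N (some l) n)).1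
      rw [hx] at g1
      rw [hy] at g2
      unfold mu sj Ms
      rw [hx, hy, hFZ n hx1 hy1, one_mul, one_mul, mul_assoc]
      refine mul_le_mul_of_nonneg_left ?_ (hW0 n)
      refine mul_le_mul_of_nonneg_right ?_ (mul_nonneg hn1 hn2)
      refine mul_le_mul_of_nonneg_left ?_ (hi0 n)
      refine le_mul_of_one_le_right (sq_nonneg _) ?_
      nlinarith
  have hsF : Summable (fun n => mu Q α h ρ ρ₁ D B N v Tr i n * (sj α h ε₁ B N z b j n *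
      sj α h ε₁ B N z b l n)) :=
    Summable.of_nonneg_of_le (fun n => (hF n).1) (fun n => (hF n).2) hsum
  refine ⟨hsF, ?_⟩
  have h1 := hsF.tsum_le_tsum (fun n => (hF n).2) hsum
  have h2 := (abs_le.1 hmas).2
  -- main term
  have hX : (0 : ℝ) ≤ ((2 * N : ℕ) : ℝ) := Nat.cast_nonneg _
  have hW' : (0 : ℝ) < ((WW D / 2 : ℕ) : ℝ) := by
    have := hD.W2
    exact_mod_cast this
  have hb : 0 < bb N B ρ := lt_of_lt_of_le one_pos hD.b1
  have hG : 0 < GG (Pb α h N z ε₁) z := lt_of_lt_of_le one_pos hD.G1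
  have ht := abs_le.1 hD.t1
  have hm := main_ineq k hD.k3 Q.I1 Q.I2 ε ε₁ (bb N B ρ)
    (Pool.Agent.W25.UN.VV α h N D (DB (2 * N) B)) ((WW D / 2 : ℕ) : ℝ)
    (Pool.Agent.W23.PL.VV (Pt α h N B ε₁)) (GG (Pb α h N z ε₁) z) ((2 * N : ℕ) : ℝ) t
    (Q1f (prP (PB α h N B ρ₁)) (cw (prP (PB α h N B ρ₁))
      (zC Q k (PB α h N B ρ₁) (ρ * Real.log N) i j l))) (Pool.Agent.W23.PL.hat th D₁) hb hD.Vp hW'
    hD.V0 hG hX hD.ε3 hD.ε0 (by linarith [ht.2]) (by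
      have h3 := hD.ε3
      have h4 := hD.Vp
      nlinarith [ht.1]) hD.hth hD.e10 hD.e11 hQ0 hI1 hI2 hQ1
  have hMm : ((2 * N : ℕ) : ℝ) * Mm D D₁ (z ^ 2) (PB α h N B ρ₁) t (cw (prP (PB α h N B ρ₁))
      (zC Q k (PB α h N B ρ₁) (ρ * Real.log N) i j l)) th th b b ≤
      MM α h D N B ρ * (vG α h N B z ε₁ * bb N B ρ) ^ 2 *
      ((1 + ε) * (1 + ε₁ ^ 3) ^ 2 * ((Q.I1 + ε) ^ 6 / (1 - ε) ^ 2 * (1 + ε) * (1 / 3 + ε) *
        (Q.I2 + ε) ^ (k - 3))) := by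
    unfold Mm MM vG
    rw [hD.bs]
    exact hm
  -- error term
  have hMM : 0 < MM α h D N B ρ := by
    unfold MM
    have hN : (0 : ℝ) < ((2 * N : ℕ) : ℝ) := by
      have := hD.N8
      have h3 : 0 < 2 * N := by omega
      exact_mod_cast h3
    have := hD.Vp
    positivity
  have herr : ((2 * N : ℕ) : ℝ) / (Real.log N) ^ A ≤
      MM α h D N B ρ * (vG α h N B z ε₁ * bb N B ρ) ^ 2 * ε := by
    have h3 : ((2 * N : ℕ) : ℝ) / (Real.log N) ^ A ≤ ((4 * N : ℕ) : ℝ) / (Real.log N) ^ A := by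
      refine div_le_div_of_nonneg_right ?_ (by positivity)
      have : 2 * N ≤ 4 * N := by omega
      exact_mod_cast this
    refine (h3.trans hD.small).trans ?_
    have h4 : vG α h N B z ε₁ ^ 2 ≤ (vG α h N B z ε₁ * bb N B ρ) ^ 2 := by
      rw [mul_pow]
      refine le_mul_of_one_le_right (sq_nonneg _) ?_
      exact one_le_pow₀ hD.b1
    calc ε * (MM α h D N B ρ * vG α h N B z ε₁ ^ 2)
        ≤ ε * (MM α h D N B ρ * (vG α h N B z ε₁ * bb N B ρ) ^ 2) :=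
          mul_le_mul_of_nonneg_left (mul_le_mul_of_nonneg_left h4 hMM.le) hD.ε0.le
      _ = _ := by ring
  calc ∑' n : ℤ, mu Q α h ρ ρ₁ D B N v Tr i n * (sj α h ε₁ B N z b j n *
      sj α h ε₁ B N z b l n) ≤ _ := h1
    _ ≤ ((2 * N : ℕ) : ℝ) * Mm D D₁ (z ^ 2) (PB α h N B ρ₁) t (cw (prP (PB α h N B ρ₁))
      (zC Q k (PB α h N B ρ₁) (ρ * Real.log N) i j l)) th th b b +
      ((2 * N : ℕ) : ℝ) / (Real.log N) ^ A := by linarith
    _ ≤ _ := by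
      rw [mul_add]
      exact add_le_add hMm herr

end Pool.Agent.W140.UBU2
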