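import Pool.Agent.W527.CL.Stm

set_option autoImplicit false

namespace Pool.Agent.W140.CLPOS

open Pool.Agent.W527.CL

theorem t_POS : Pool.Agent.W527.CL.S_POS := by
  intro K _ _ D k j hk3 hk4
  have hswap : Equiv.swap (3 : Fin 5) 4 k = k := Equiv.swap_apply_of_ne_of_ne hk3 hk4
  have hc := D.conj k
  rw [hswap] at hc
  obtain ⟨x, hx⟩ := Complex.conj_eq_iff_real.1 hc
  have hroot := D.root k
  rw [hx] at hroot
  have hr : x ^ 5 - 4 * x + 2 = 0 := by exact_mod_cast hroot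
  have hx2 : -2 < x := by
    by_contra hcon
    push Not at hcon
    have h4 : 16 ≤ x ^ 4 := by nlinarith [sq_nonneg (x ^ 2 - 4), sq_nonneg x]
    have h5 : x ^ 5 = x * x ^ 4 := by ring
    nlinarith
  have hn : (3 : ℤ) ≤ nn j := by
    fin_cases j <;> simp [nn]
  have hn' : (3 : ℝ) ≤ (nn j : ℝ) := by exact_mod_cast hn
  refine ⟨x + (nn j : ℝ), by linarith, ?_⟩
  rw [hx]
  push_cast
  rfl

end Pool.Agent.W140.CLPOS
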